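import Pool.Agent.EFA.Stmts

/-!
Squad EFA (MP_f28000_lc), row CMP (helper19): continuity gives a computation.
-/

set_option autoImplicit false

open Pool.Agent.Helper25TD

namespace Pool.Agent.EFA.H19

/-- the code of the first `n` bits -/
def pc (y : ℕ → Bool) (n : ℕ) : ℕ := Nat.rec 0 (fun k i => 2 ^ k * (y k).toNat + i) n

lemma pc_succ (y : ℕ → Bool) (n : ℕ) : pc y (n + 1) = 2 ^ n * (y n).toNat + pc y n := rfl

lemma pc_lt (y : ℕ → Bool) (n : ℕ) : pc y n < 2 ^ n := by
  induction n with
  | zero => exact Nat.one_pos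
  | succ n ih =>
    rw [pc_succ, pow_succ]
    have : (y n).toNat ≤ 1 := Bool.toNat_le (y n)
    have h2 : 2 ^ n * (y n).toNat ≤ 2 ^ n * 1 := Nat.mul_le_mul_left _ this
    omega

lemma testBit_pc (y : ℕ → Bool) (n x : ℕ) : Nat.testBit (pc y n) x = (decide (x < n) && y x) := by
  induction n with
  | zero =>
    show Nat.testBit 0 x = _
    simp
  | succ n ih =>
    rw [pc_succ, Nat.testBit_two_pow_mul_add _ (pc_lt y n)]
    by_cases h : x < n
    · rw [if_pos h, ih]
      have h2 : x < n + 1 := by omega
      simp [h, h2]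
    · rw [if_neg h]
      by_cases h3 : x = n
      · subst h3
        rw [Nat.sub_self]
        cases y x <;> simp
      · have h4 : ¬ x < n + 1 := by omega
        have h5 : x - n = (x - n - 1) + 1 := by omega
        rw [h5, Nat.testBit_succ]
        cases y n <;> simp [h4]

lemma TR_comp {x : ℕ → Bool} {g : ℕ → ℕ} (hg : Computable g) : TR x g :=
  Nat.Partrec.recursiveIn (Partrec.nat_iff.1 hg)

lemma TR_pc (y : ℕ → Bool) : TR y (pc y) := by
  have h1 : TR y fun m => 2 ^ (Nat.unpair (Nat.unpair m).2).1 *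
      (y (Nat.unpair (Nat.unpair m).2).1).toNat + (Nat.unpair (Nat.unpair m).2).2 := by
    have h2 : TR y fun m => (y (Nat.unpair (Nat.unpair m).2).1).toNat :=
      (TR.of_le (TLE.refl y)).comp (TR.prim (Primrec.fst.comp (Primrec.unpair.comp
        (Primrec.snd.comp Primrec.unpair))))
    have hpow : Primrec fun n : ℕ => 2 ^ n := by
      have h : Primrec fun n : ℕ => (Nat.rec 1 (fun _ i => 2 * i) n : ℕ) :=
        Primrec.nat_rec₁ 1 ((Primrec.nat_mul.comp (Primrec.const 2) Primrec.snd).to₂)
      refine h.of_eq fun n => ?_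
      induction n with
      | zero => rfl
      | succ n ih =>
        show 2 * _ = _
        rw [ih, pow_succ]
        ring
    have h3 : TR y fun m => 2 ^ (Nat.unpair (Nat.unpair m).2).1 :=
      TR.prim (hpow.comp (Primrec.fst.comp (Primrec.unpair.comp
        (Primrec.snd.comp Primrec.unpair))))
    have h4 : TR y fun m => (Nat.unpair (Nat.unpair m).2).2 :=
      TR.prim (Primrec.snd.comp (Primrec.unpair.comp (Primrec.snd.comp Primrec.unpair)))
    have h5 : TR y fun n => (Nat.unpair n).1 * (Nat.unpair n).2 :=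
      TR.prim (Primrec.nat_mul.comp (Primrec.fst.comp Primrec.unpair)
        (Primrec.snd.comp Primrec.unpair))
    have h6 : TR y fun n => (Nat.unpair n).1 + (Nat.unpair n).2 :=
      TR.prim (Primrec.nat_add.comp (Primrec.fst.comp Primrec.unpair)
        (Primrec.snd.comp Primrec.unpair))
    have h7 := h6.comp ((h5.comp (h3.pair h2)).pair h4)
    simpa using h7
  have h2 := (TR.prec (TR.prim (Primrec.const 0)) h1).comp
    (TR.prim (Primrec₂.natPair.comp (Primrec.const 0) Primrec.id))
  simp only [Nat.unpair_pair, id] at h2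
  exact h2

theorem cmp : CmpStmt := by
  intro V hV r hr Y Z h
  have hval : ∀ y, V (pc (bo Y) (r y + 1)) y = (bo Z y).toNat := fun y =>
    h y _ fun x => testBit_pc (bo Y) (r y + 1) x
  have h1 : Computable fun m : ℕ => V (Nat.unpair m).1 (Nat.unpair m).2 :=
    hV.comp (Computable.fst.comp Computable.unpair) (Computable.snd.comp Computable.unpair)
  have h2 : Computable fun y : ℕ => r y + 1 := Computable.succ.comp hr
  have h3 : TR (bo Y) fun y => pc (bo Y) (r y + 1) := (TR_pc (bo Y)).comp (TR_comp h2)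
  have h4 := (TR_comp (x := bo Y) h1).comp (h3.pair (TR.prim Primrec.id))
  refine TR.to_le ?_
  refine Nat.RecursiveIn.of_eq h4 fun y => ?_
  simp only [Nat.unpair_pair, id]
  rw [hval y]

end Pool.Agent.EFA.H19
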